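import Pool.Agent.H378.GM.Stm

/-!
# The McKay–Galois conjecture, `p`-groups of operators and Clifford classes

Let `G` be a normal subgroup of the finite group `K` such that `K / G` is a `p`-group and let `P` be a
Sylow `p`-subgroup of `G`. We show that the McKay–Galois conjecture for all finite groups implies
that there is a bijection from the `K`-invariant characters in `Irr_{p'}(G)` to the
`N_K(P)`-invariant characters in `Irr_{p'}(N_G(P))` which commutes with `𝓗` and preserves the
Clifford classes together with the action of the Galois automorphisms on the extensions: if `ψ` is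
the image of `θ`, then `θ × ψ̄` has an extension to the fibre product of `K` and `N_K(P)` over
`K / G ≅ N_K(P) / N_G(P)` which is fixed by all `σ ∈ ⟨𝓗⟩` with `θ^σ = θ`. The same holds for any set
`S` of automorphisms of `ℂ` in the place of `𝓗`.

Proof. Let `T` be a set of automorphisms in the group generated by `S`. The restrictions to `G` of
the characters in `Irr_{p'}(K)` fixed by `T` are the characters in `Irr_{p'}(G)` with an extension
fixed by `T`, and the number of these extensions is the number of the linear characters of `K / G`
fixed by `T`. The conjecture for `K` and `N_K(P)`, which have a common Sylow normaliser, and the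
Frattini argument show that the numbers of the characters in `Irr_{p'}(G)` and `Irr_{p'}(N_G(P))`
with an extension to `K` and `N_K(P)` fixed by `T` are equal. We use this for the normal subgroups
`G × G` and `G × N_G(P)` of the fibre products `K ×_{K/G} K` and `K ×_{K/G} N_K(P)`. The relation
that `θ × ψ̄` has an extension fixed by `T` is an equivalence relation on the invariant characters of
`G` and `N_G(P)` fixed by `T`. If `x_c`, `y_c` are the numbers of the elements of the class `c` in
`Irr_{p'}(G)` and `Irr_{p'}(N_G(P))`, it follows that `∑ x_c² = ∑ y_c² = ∑ x_c y_c`, hence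
`x_c = y_c`. An equivariant bijection is then constructed orbit by orbit, starting with the
characters with the largest stabilisers.

From the library: `IsIrreducibleCharacter χ`: `χ` is the character of an irreducible
finite-dimensional complex representation. `FibreProduct G P` (from `Pool.Agent.H378.AP.Fin`) is the
group of the pairs `(x, y) ∈ K × N_K(P)` with `x G = y G`. From `Pool.Agent.H378.GM.Stm`:
* `IrrPrime p G`: `Irr_{p'}(G)`, the irreducible characters of degree prime to `p`;
* `InvIrr p G`, for a subgroup `G` of `K`: the `K`-invariant characters in `Irr_{p'}(G)`;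
* `Commutes S f`: the bijection `f` commutes with all automorphisms in `S`;
* `McKayGalois p S G P`: there is a bijection `Irr_{p'}(G) → Irr_{p'}(N_G(P))` which commutes with all
  automorphisms in `S`;
* `SylowOf p G P`: `P` is a Sylow `p`-subgroup of the subgroup `G` of `K`;
* `SameClass T θ ψ`: there is an irreducible character `χ` of `FibreProduct G P` fixed by all
  automorphisms in `T` such that `χ (x, y) = θ(x) ψ(y⁻¹)` for all `x ∈ G`, `y ∈ N_G(P)`;
* `Relative p S`: for all finite groups `K`, normal subgroups `G` such that `K / G` is a `p`-group and
  Sylow `p`-subgroups `P` of `G` there is a bijection `f` from the `K`-invariant characters in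
  `Irr_{p'}(G)` to the `N_K(P)`-invariant characters in `Irr_{p'}(N_G(P))` which commutes with `S`
  such that `SameClass T θ (f θ)` for all `θ`, where `T` is the set of all `σ` in the group generated
  by `S` with `σ ∘ θ = θ`.
-/

set_option autoImplicit false

namespace Pool.Agent.Results.MP_1ae3da_al.InvariantCharacters

open Pool.Agent.H378.GM (McKayGalois Relative)

/-- `𝓗`: the automorphisms `σ` of `ℂ` for which there is an integer `e ≥ 0` such that
`σ(ξ) = ξ ^ (p ^ e)` for all roots of unity `ξ` of order prime to `p` -/
def HH (p : ℕ) : Set (ℂ ≃+* ℂ) :=
  {σ | ∃ e : ℕ, ∀ (m : ℕ) (ξ : ℂ), ¬ p ∣ m → ξ ^ m = 1 → σ ξ = ξ ^ p ^ e}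

/-- The McKay–Galois conjecture for `p` and all finite groups (Q1 for `p`) is equivalent to its
relative form for `p`-groups of operators; the same holds for any set `S` of automorphisms of `ℂ` in
the place of `𝓗`. -/
theorem result (p : ℕ) [Fact p.Prime] :
    ((∀ (G : Type) [Group G] [Finite G] (P : Sylow p G), McKayGalois p (HH p) G P) ↔
      Relative p (HH p)) ∧
    ∀ S : Set (ℂ ≃+* ℂ),
      (∀ (G : Type) [Group G] [Finite G] (P : Sylow p G), McKayGalois p S G P) ↔ Relative p S :=
  ⟨Pool.Agent.H378.GM.main_gm p (HH p), Pool.Agent.H378.GM.main_gm p⟩

end Pool.Agent.Results.MP_1ae3da_al.InvariantCharacters
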