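import Pool.Agent.H378.RS.Mg

/-!
# The McKay–Galois conjecture for inertia automorphisms of `p`-power order: one residue class of
differences decides

`IsIrr χ` (from `Pool.Agent.H254R3.IN.Defs`) says that `χ` is an irreducible complex character. Let `s`
be an automorphism of `ℂ` which fixes all roots of unity of order prime to `p` and acts with `p`-power
order on the roots of unity of `p`-power order. For a finite group `G` with Sylow `p`-subgroup `P` let
`k_i` and `l_i` be the numbers of the characters in `Irr_{p'}(G)` and in `Irr_{p'}(N_G(P))` fixed by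
`s ^ (p ^ i)`.

Proof. For a prime number `q ≠ p` the automorphisms `s` and `s ^ q` fix the same characters, and `s`
fixes the `q`-th roots of unity; so `G ≀ C_q` has the numbers `(k_i ^ q + (q² - 1) k_i) / q` and
`(l_i ^ q + (q² - 1) l_i) / q`. The numbers for `G^n` are the powers. From these two operations one
gets, if `k_i ≠ l_i` for some group, all residue classes modulo a given power of `q` as differences
`k_i - l_i` at all large scales (`Pool.Agent.H378.RS.Tw3`: valuations, Teichmüller representatives,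
Dirichlet's theorem and Hensel's lemma). The permutation characters of `⟨s⟩` on `Irr_{p'}(G)` and
`Irr_{p'}(N_G(P))` are determined by the `k_i` and the `l_i`. For odd `p` the group of all these `s`
acts on the roots of unity of order `|G|` as a cyclic group, generated by the automorphism with
`s ζ = ζ ^ (1 + p)` for the `ζ` of `p`-power order.
-/

set_option autoImplicit false

open scoped Classical

noncomputable section

namespace Pool.Agent.Results.MP_1ae3da_al.OneResidueClass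

open Pool.Agent.H254R3.IN (IsIrr)

/-- the irreducible characters of `G` of degree prime to `p` -/
def irrPrime (p : ℕ) (G : Type) [Group G] : Set (G → ℂ) :=
  {χ | IsIrr χ ∧ ∃ n : ℕ, (n : ℂ) = χ 1 ∧ ¬ p ∣ n}

/-- the members of `X` fixed by `s` -/
def fixed {G : Type} (X : Set (G → ℂ)) (s : ℂ ≃+* ℂ) : Set (G → ℂ) :=
  {χ | χ ∈ X ∧ ∀ g, s (χ g) = χ g}

/-- the automorphisms of `ℂ` which fix all roots of unity of order prime to `p` and act with `p`-power
order on the roots of unity of order `p ^ j`, for all `j` -/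
def inertiaP (p : ℕ) : Set (ℂ ≃+* ℂ) :=
  {s | (∀ n : ℕ, ¬ p ∣ n → ∀ ζ : ℂ, ζ ^ n = 1 → s ζ = ζ) ∧
    ∀ j : ℕ, ∃ i : ℕ, ∀ ζ : ℂ, ζ ^ (p ^ j) = 1 → (s ^ (p ^ i)) ζ = ζ}

/-- the wreath product of `G` with the cyclic group of order `r` in its regular action -/
abbrev WreathCyclic (G : Type) [Group G] (r : ℕ) : Type :=
  (Multiplicative (ZMod r) → G) ⋊[mulAutArrow (G := Multiplicative (ZMod r))
    (A := Multiplicative (ZMod r)) (M := G)] Multiplicative (ZMod r)

/-- `X` is a class of groups closed under isomorphism and direct products of two groups, and `Y` is a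
class of finite groups closed under direct products and wreath products with groups of prime order
different from `p` -/
structure Closed (p : ℕ) (X Y : ∀ (P : Type) [Group P], Prop) : Prop where
  iso : ∀ (P Q : Type) [Group P] [Group Q], Nonempty (P ≃* Q) → X P → X Q
  prod : ∀ (P Q : Type) [Group P] [Group Q], X P → X Q → X (P × Q)
  prod' : ∀ (G H : Type) [Group G] [Finite G] [Group H] [Finite H], Y G → Y H → Y (G × H)
  wreath : ∀ r : ℕ, r.Prime → r ≠ p → ∀ (G : Type) [Group G] [Finite G], Y G →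
    Y (WreathCyclic G r)

/-- There is a bijection from `X` to `Y` which commutes with all automorphisms in `T`. -/
def Equivariant {G H : Type} (T : Set (ℂ ≃+* ℂ)) (X : Set (G → ℂ)) (Y : Set (H → ℂ)) : Prop :=
  ∃ f : X ≃ Y, ∀ t ∈ T, ∀ χ χ' : X, (χ'.1 = fun g => t (χ.1 g)) →
    (f χ').1 = fun g => t ((f χ).1 g)

/-- The McKay–Galois statement for the set `T` of automorphisms, for the groups in `Y` with Sylow
`p`-subgroup in `X`: there are bijections `Irr_{p'}(G) → Irr_{p'}(N_G(P))` commuting with `T`. -/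
def McKayGalois (p : ℕ) (X Y : ∀ (P : Type) [Group P], Prop) (T : Set (ℂ ≃+* ℂ)) : Prop :=
  ∀ (G : Type) [Group G] [Finite G], Y G → ∀ P : Sylow p G, X P →
    Equivariant T (irrPrime p G) (irrPrime p (Subgroup.normalizer ((P : Subgroup G) : Set G)))

/-- `Q |G| k l` for all groups `G` in `Y` with Sylow `p`-subgroup `P` in `X`, where `k` and `l` are the
numbers of the characters in `Irr_{p'}(G)` and in `Irr_{p'}(N_G(P))` fixed by `s`. -/
def ForAll (p : ℕ) (X Y : ∀ (P : Type) [Group P], Prop) (s : ℂ ≃+* ℂ)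
    (Q : ℕ → ℕ → ℕ → Prop) : Prop :=
  ∀ (G : Type) [Group G] [Finite G], Y G → ∀ P : Sylow p G, X P →
    Q (Nat.card G) (fixed (irrPrime p G) s).ncard
      (fixed (irrPrime p (Subgroup.normalizer ((P : Subgroup G) : Set G))) s).ncard

/-- `Q |G| k l` for some group `G` in `Y` with Sylow `p`-subgroup `P` in `X`, where `k` and `l` are the
numbers of the characters in `Irr_{p'}(G)` and in `Irr_{p'}(N_G(P))` fixed by `s`. -/
def ForSome (p : ℕ) (X Y : ∀ (P : Type) [Group P], Prop) (s : ℂ ≃+* ℂ)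
    (Q : ℕ → ℕ → ℕ → Prop) : Prop :=
  ∃ (G : Type) (_ : Group G) (_ : Finite G) (P : Sylow p G), Y G ∧ X P ∧
    Q (Nat.card G) (fixed (irrPrime p G) s).ncard
      (fixed (irrPrime p (Subgroup.normalizer ((P : Subgroup G) : Set G))) s).ncard

/-- `k` and `l` agree up to a factor `t` or up to an error `t` -/
def Close (t : ℝ) (k l : ℕ) : Prop := ((k : ℝ) ≤ t * l ∧ (l : ℝ) ≤ t * k) ∨ |(k : ℝ) - l| ≤ t

theorem Closed.pow {p : ℕ} {X Y : ∀ (P : Type) [Group P], Prop} (h : Closed p X Y) (P : Type)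
    [Group P] (n : ℕ) (hn : 1 ≤ n) (hP : X P) : X (Fin n → P) := by
  induction n, hn using Nat.le_induction with
  | base => exact h.iso _ _ ⟨(MulEquiv.funUnique (Fin 1) P).symm⟩ hP
  | succ n _ ih =>
      refine h.iso _ _ ⟨?_⟩ (h.prod _ _ hP ih)
      exact
        { toFun := fun x => Fin.cons x.1 x.2
          invFun := fun f => (f 0, Fin.tail f)
          left_inv := fun x => by
            refine Prod.ext ?_ ?_
            · change (Fin.cons x.1 x.2 : Fin (n + 1) → P) 0 = x.1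
              rw [Fin.cons_zero]
            · change Fin.tail (Fin.cons x.1 x.2 : Fin (n + 1) → P) = x.2
              rw [Fin.tail_cons]
          right_inv := fun f => Fin.cons_self_tail f
          map_mul' := fun x y => by
            funext i
            refine Fin.cases ?_ (fun j => ?_) i
            · rfl
            · rfl }

theorem modEq_iff {q a : ℕ} {s r : ℤ} : s ≡ r [ZMOD (q ^ a : ℕ)] ↔ (q : ℤ) ^ a ∣ s - r := by
  rw [Int.modEq_comm, Int.modEq_iff_dvd]
  push_cast
  exact Iff.rfl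

variable {p : ℕ} {X Y : ∀ (P : Type) [Group P], Prop}

/-- the class of the groups in `Y` with subgroup in `X` -/
def CC (X Y : ∀ (P : Type) [Group P], Prop) (G : Type) [Group G] (P : Subgroup G) : Prop :=
  (Finite G → Y G) ∧ X P

theorem cc_cl (h : Closed p X Y) : Pool.Agent.H378.RS.ClS p (CC X Y) := by
  refine ⟨?_, ?_⟩
  · rintro q _ hq G _ _ P ⟨h2, h3⟩
    have : NeZero q := ⟨(Fact.out : q.Prime).ne_zero⟩
    exact ⟨fun _ => h.wreath q Fact.out hq G (h2 inferInstance),
      h.iso _ _ ⟨(Pool.Agent.Q17.AM.eDw P).symm⟩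
        (Pool.Agent.Q17.AM.Cl.fun (X := X) ⟨h.iso, fun P _ n hn hP => h.pow P n hn hP⟩ h3)⟩
  · rintro G₁ G₂ _ _ _ _ P₁ P₂ ⟨h1, h2⟩ ⟨h3, h4⟩
    exact ⟨fun _ => h.prod' G₁ G₂ (h1 inferInstance) (h3 inferInstance),
      h.iso _ _ ⟨(Subgroup.prodEquiv P₁ P₂).symm⟩ (h.prod _ _ h2 h4)⟩

theorem forAll_iff {s : ℂ ≃+* ℂ} {Q : ℕ → ℕ → ℕ → Prop} : ForAll p X Y s Q ↔
    Pool.Agent.H378.RS.AllMG p (CC X Y) s Q := by
  constructor
  · intro h G _ _ P hG
    exact h G (hG.1 inferInstance) P hG.2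
  · intro h G _ _ hG P hP
    have hF : Fintype G := Fintype.ofFinite G
    exact h G P ⟨fun _ => hG, hP⟩

/-- the numbers of fixed characters -/
theorem mckayGalois_iff [Fact p.Prime] {s : ℂ ≃+* ℂ} (hs : s ∈ inertiaP p) :
    McKayGalois p X Y {s} ↔ ∀ i : ℕ,
      Pool.Agent.H378.RS.AllMG p (CC X Y) (s ^ (p ^ i)) (fun _ a b => a = b) := by
  constructor
  · intro h i G _ _ P hG
    have hF' : Fintype (Pool.Agent.Q17.AM.NN (P : Subgroup G)) := Fintype.ofFinite _
    obtain ⟨e, he⟩ := h G (hG.1 inferInstance) P hG.2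
    exact Pool.Agent.H378.RS.counts_of_equiv (fun χ => Pool.Agent.Q237.AM.ip_gal _ χ)
      (fun χ => Pool.Agent.Q237.AM.ip_gal _ χ) ⟨e, fun χ χ' h1 => he s rfl χ χ' h1⟩ (p ^ i)
  · intro h G _ _ hG P hP
    have hF : Fintype G := Fintype.ofFinite G
    have hF' : Fintype (Pool.Agent.Q17.AM.NN (P : Subgroup G)) := Fintype.ofFinite _
    obtain ⟨e, he⟩ := Pool.Agent.H378.RS.equiv_of_counts (p := p) (s := s) hs
      (H := Pool.Agent.Q17.AM.NN (P : Subgroup G))
      (X := irrPrime p G) (Y := irrPrime p (Pool.Agent.Q17.AM.NN (P : Subgroup G)))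
      (fun χ hχ => hχ.1) (fun χ hχ => hχ.1)
      (Pool.Agent.Q17.AM.ip_finite p) (Pool.Agent.Q17.AM.ip_finite p)
      (fun χ => Pool.Agent.Q237.AM.ip_gal _ χ) (fun χ => Pool.Agent.Q237.AM.ip_gal _ χ)
      (fun i => h i G P ⟨fun _ => hG, hP⟩)
    exact ⟨e, fun t ht χ χ' h5 => by
      rw [Set.mem_singleton_iff.1 ht] at h5 ⊢
      exact he χ χ' h5⟩

/-- **The McKay–Galois conjecture for inertia automorphisms of `p`-power order: one residue class
decides.** Let `p` be a prime number, `X` a class of groups closed under isomorphism and direct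
products, `Y` a class of finite groups closed under direct products and wreath products with groups of
prime order different from `p` (for instance all groups and all finite groups). Let `s` be an
automorphism of `ℂ` which fixes the roots of unity of order prime to `p` and acts with `p`-power order
on those of order `p ^ j` for all `j` (for instance `s = 1`). For a group `G` in `Y` with Sylow
`p`-subgroup `P` in `X` let `k_i`, `l_i` be the numbers of the characters in `Irr_{p'}(G)` and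
`Irr_{p'}(N_G(P))` fixed by `s ^ (p ^ i)`. For all `i ≥ 0` let `q i ≠ p` be a prime number, `a i` and
`n₀ i` natural numbers and `r i` an integer.
(1) There are bijections `Irr_{p'}(G) → Irr_{p'}(N_G(P))` commuting with `s` for all these groups if and
only if for all `i` and `ε > 0` there are arbitrarily large `x` such that `k_i` and `l_i` agree up to a
factor `x ^ ε` or up to an error `x ^ ε` for those of these groups with `k_i - l_i ≡ r i` modulo
`q i ^ a i` and `n₀ i ≤ |G| ≤ x`.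
(2) If `q i ^ a i` does not divide `r i` for any `i`, such bijections exist for all these groups if and
only if `k_i - l_i` is not congruent to `r i` modulo `q i ^ a i` for those with `|G| ≥ n₀ i`, for
all `i`.
(3) If there is no such bijection for one of these groups, there is an `i` such that, for all powers
`q ^ a` of prime numbers `q ≠ p` and all `n₀`, for some `δ > 0` one of the following is true for all
large `x` and all integers `m`, with the same of the two for all `x` and `m`: there is one of these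
groups with `n₀ ≤ |G| ≤ x`, `k_i - l_i ≡ m` modulo `q ^ a`, `k_i ≥ x ^ δ l_i` and `k_i - l_i ≥ x ^ δ`;
or the same with `l_i ≥ x ^ δ k_i` and `l_i - k_i ≥ x ^ δ`.
(4) If `p` is odd and `s ζ = ζ ^ (1 + p)` for the roots of unity `ζ` of `p`-power order, then there are
bijections commuting with `s` for all these groups if and only if there are bijections which commute
with all automorphisms in `inertiaP p`. -/
theorem result (p : ℕ) [Fact p.Prime]
    (X Y : ∀ (P : Type) [Group P], Prop) (hXY : Closed p X Y) (s : ℂ ≃+* ℂ) (hs : s ∈ inertiaP p)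
    (q a n₀ : ℕ → ℕ) (hq : ∀ i, (q i).Prime) (hqp : ∀ i, q i ≠ p) (r : ℕ → ℤ) :
    (McKayGalois p X Y {s} ↔ ∀ i : ℕ, ∀ ε : ℝ, 0 < ε → ∀ x₀ : ℝ, ∃ x : ℝ, x₀ ≤ x ∧
      ForAll p X Y (s ^ (p ^ i)) (fun g k l => n₀ i ≤ g → (g : ℝ) ≤ x →
        (k : ℤ) - l ≡ r i [ZMOD (q i ^ a i : ℕ)] → Close (x ^ ε) k l)) ∧
    ((∀ i, ¬ ((q i ^ a i : ℕ) : ℤ) ∣ r i) → (McKayGalois p X Y {s} ↔ ∀ i : ℕ,
      ForAll p X Y (s ^ (p ^ i)) (fun g k l => n₀ i ≤ g →
        ¬ (k : ℤ) - l ≡ r i [ZMOD (q i ^ a i : ℕ)]))) ∧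
    (¬ McKayGalois p X Y {s} → ∃ i : ℕ, ∀ q a n₀ : ℕ, q.Prime → q ≠ p → ∃ δ : ℝ, 0 < δ ∧ ∃ x₀ : ℝ,
      (∀ x : ℝ, x₀ ≤ x → ∀ m : ℤ, ForSome p X Y (s ^ (p ^ i)) (fun g k l => n₀ ≤ g ∧
        (g : ℝ) ≤ x ∧ (k : ℤ) - l ≡ m [ZMOD (q ^ a : ℕ)] ∧ x ^ δ * l ≤ k ∧
        x ^ δ ≤ (k : ℝ) - l)) ∨
      (∀ x : ℝ, x₀ ≤ x → ∀ m : ℤ, ForSome p X Y (s ^ (p ^ i)) (fun g k l => n₀ ≤ g ∧
        (g : ℝ) ≤ x ∧ (k : ℤ) - l ≡ m [ZMOD (q ^ a : ℕ)] ∧ x ^ δ * k ≤ l ∧
        x ^ δ ≤ (l : ℝ) - k))) ∧
    (p ≠ 2 → (∀ (j : ℕ) (ζ : ℂ), ζ ^ (p ^ j) = 1 → s ζ = ζ ^ (1 + p)) →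
      (McKayGalois p X Y {s} ↔ McKayGalois p X Y (inertiaP p))) := by
  have hC := cc_cl hXY
  have hsi : ∀ i : ℕ, Pool.Agent.H378.RS.PIn p (s ^ (p ^ i)) := fun i =>
    Pool.Agent.H378.RS.PIn.pow hs _
  have hmain : (∀ i : ℕ, ∀ ε : ℝ, 0 < ε → ∀ x₀ : ℝ, ∃ x : ℝ, x₀ ≤ x ∧
      ForAll p X Y (s ^ (p ^ i)) (fun g k l => n₀ i ≤ g → (g : ℝ) ≤ x →
        (k : ℤ) - l ≡ r i [ZMOD (q i ^ a i : ℕ)] → Close (x ^ ε) k l)) →
      McKayGalois p X Y {s} := by
    intro h
    rw [mckayGalois_iff hs]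
    intro i
    refine Pool.Agent.H378.RS.mg_res hC (hsi i) (hq i) (hqp i) (a i) (n₀ i) (r i)
      fun ε hε x₀ => ?_
    obtain ⟨x, hx, H⟩ := h i ε hε x₀
    rw [forAll_iff] at H
    refine ⟨x, hx, fun G _ _ P hG h1 h2 h3 => ?_⟩
    exact H G P hG h1 h2 (modEq_iff.2 h3)
  have hall : McKayGalois p X Y {s} → ∀ i : ℕ,
      ForAll p X Y (s ^ (p ^ i)) (fun _ k l => k = l) := by
    intro h i
    rw [mckayGalois_iff hs] at h
    exact forAll_iff.2 (h i)
  refine ⟨⟨fun h i ε _ x₀ => ⟨max x₀ 0, le_max_left _ _, ?_⟩, hmain⟩, fun hr => ⟨fun h i => ?_,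
    fun h => hmain fun i ε _ x₀ => ⟨x₀, le_rfl, ?_⟩⟩, fun h => ?_, fun hp2 hs' => ⟨fun h => ?_,
    fun h => ?_⟩⟩
  · intro G _ _ hG P hP _ _ _
    have h6 := hall h i G hG P hP
    refine Or.inr ?_
    rw [h6, sub_self, abs_zero]
    exact Real.rpow_nonneg (le_max_right _ _) _
  · intro G _ _ hG P hP _ h7
    have h6 := hall h i G hG P hP
    rw [h6, sub_self, Int.modEq_iff_dvd, sub_zero] at h7
    exact hr i h7
  · intro G _ _ hG P hP h6 _ h7
    exact absurd h7 (h i G hG P hP h6)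
  · rw [mckayGalois_iff hs] at h
    push Not at h
    obtain ⟨i, hi⟩ := h
    refine ⟨i, fun q a n₀ hq hqp => ?_⟩
    obtain ⟨δ, hδ, x₀, H⟩ := Pool.Agent.H378.RS.mg_all hC (hsi i) hq hqp a n₀ hi
    refine ⟨δ, hδ, x₀, ?_⟩
    rcases H with H | H
    · refine Or.inl fun x hx m => ?_
      obtain ⟨G, i1, i2, P, hG, h1, h2, h3, h4, h5⟩ := H x hx m
      exact ⟨G, i1, inferInstance, P, hG.1 inferInstance, hG.2, h1, h2, modEq_iff.2 h3, h4, h5⟩
    · refine Or.inr fun x hx m => ?_
      obtain ⟨G, i1, i2, P, hG, h1, h2, h3, h4, h5⟩ := H x hx m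
      exact ⟨G, i1, inferInstance, P, hG.1 inferInstance, hG.2, h1, h2, modEq_iff.2 h3, h4, h5⟩
  · intro G _ _ hG P hP
    have hF : Fintype G := Fintype.ofFinite G
    exact Pool.Agent.H378.RS.eqt_gen hp2 hs hs' (fun χ hχ => hχ.1) (fun χ hχ => hχ.1)
      (fun χ => Pool.Agent.Q237.AM.ip_gal _ χ) (h G hG P hP)
  · intro G _ _ hG P hP
    obtain ⟨e, he⟩ := h G hG P hP
    exact ⟨e, fun t ht => he t (Set.mem_singleton_iff.1 ht ▸ hs)⟩

end Pool.Agent.Results.MP_1ae3da_al.OneResidueClass
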