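import Pool.Agent.H373.PG.Odd
import Pool.Agent.H373.PG.CharP

/-!
# The McKay–Galois conjecture: perfect affine groups decide

Let `p` be an odd prime. We show that the McKay–Galois conjecture for `p` and all finite groups is
equivalent to the McKay–Galois conjecture for the semidirect products `V ⋊ K`, `V ≠ 1` an elementary
abelian `q`-group (`q` any prime, also `q = p`) on which `K` acts faithfully, whose abelian quotients
are 2-groups; and that for `p ≥ 5` and automorphisms of odd order perfect groups of this form are
sufficient.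

Outline of the proof. Let `Γ` be a group of field automorphisms, `f : G → A` surjective onto a group of
prime order `r` and `K_j` the kernel of `(g_1, …, g_j) ↦ ∏ f(g_i)`. For a transitive permutation group
`T` on a set `Ω` the kernel `X` of `G ≀ T → A` contains `K_Ω`. With the module `V` of the functions
with sum zero from (a quotient of) `X` to the field with two elements, the little group method for
`V ^ k ⋊ X` (`k` large) shows that the numbers of the `Γ`-fixed characters of degree prime to `p` of
`K_j` and of its Sylow normalizer agree if they agree for the groups `V ^ k ⋊ X`; these have smaller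
abelian quotients than `G`, if `T` is suitable. By Clifford theory `r` times the number for `K_j` is
`∑_u x_u ^ j` up to an error `O(c ^ j)`, where `x_u` is the number of the characters `χ` of `G` of
degree prime to `p` with `σ χ = u(σ) χ` for `σ ∈ Γ` (`u : Γ → Hom(A, ℂˣ)`), and `c < x_1`. So the
multiplicities of the numbers `> c` among the `x_u` agree for `G` and `N_G(P)`. As `x_u = x_{u⁻¹}`, the
number `x_1` is the only one with odd multiplicity, if `r` is odd; for `r = 2` and `Γ` of odd order
only `u = 1` occurs. So the numbers `x_1` of the `Γ`-fixed characters agree for `G` and `N_G(P)`.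
-/

set_option autoImplicit false

namespace Pool.Agent.Results.MP_1ae3da_al.PerfectAffineGroups

/-- `χ` is the character of an irreducible finite-dimensional complex representation of `G`. -/
def IsIrr {G : Type} [Group G] (χ : G → ℂ) : Prop :=
  ∃ (V : Type) (_ : AddCommGroup V) (_ : Module ℂ V) (_ : FiniteDimensional ℂ V)
    (ρ : Representation ℂ G V), ρ.IsIrreducible ∧ χ = ρ.character

/-- `Irr_{p'}(G)`: the irreducible characters of `G` of degree prime to `p`. -/
def IrrPrime (p : ℕ) (G : Type) [Group G] : Set (G → ℂ) :=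
  {χ | IsIrr χ ∧ ∃ n : ℕ, (n : ℂ) = χ 1 ∧ ¬ p ∣ n}

/-- For all Sylow `p`-subgroups `P` of `G` there is a bijection `Irr_{p'}(G) → Irr_{p'}(N_G(P))` which
commutes with the action `χ ↦ σ ∘ χ` of all `σ ∈ Γ`. -/
def Equivariant (p : ℕ) (Γ : Set (ℂ ≃+* ℂ)) (G : Type) [Group G] : Prop :=
  ∀ P : Sylow p G, ∃ f : IrrPrime p G ≃
      IrrPrime p (Subgroup.normalizer ((P : Subgroup G) : Set G)),
    ∀ σ ∈ Γ, ∀ χ : IrrPrime p G, ∃ h : (fun g => σ ((χ : G → ℂ) g)) ∈ IrrPrime p G,
      (f ⟨fun g => σ ((χ : G → ℂ) g), h⟩ :
        Subgroup.normalizer ((P : Subgroup G) : Set G) → ℂ) = fun g => σ ((f χ : _ → ℂ) g)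

/-- `𝓗`: the field automorphisms `σ` for which there is `e ≥ 0` with `σ(ξ) = ξ ^ (p ^ e)` for all roots
of unity `ξ` of order prime to `p`. -/
def H (p : ℕ) : Set (ℂ ≃+* ℂ) :=
  {σ | ∃ e : ℕ, ∀ (ξ : ℂ) (m : ℕ), ¬ p ∣ m → ξ ^ m = 1 → σ ξ = ξ ^ p ^ e}

/-- `σ` permutes the `n`-th roots of unity with odd order, for all `n`. -/
def OddOrder (σ : ℂ ≃+* ℂ) : Prop :=
  ∀ n : ℕ, 0 < n → ∃ m : ℕ, Odd m ∧ ∀ ζ : ℂ, ζ ^ n = 1 → (σ ^ m) ζ = ζ

/-- The group `X` is affine over the prime `q`: it has a normal elementary abelian `q`-subgroup `V ≠ 1`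
which contains (so is equal to) its centralizer, and a complement `K` of `V` with `h(|K|) ≤ |V|`. -/
def IsAffine (q : ℕ) (h : ℕ → ℕ) (X : Type) [Group X] : Prop :=
  ∃ V K : Subgroup X, V.Normal ∧ IsCompl V K ∧ (∀ a ∈ V, ∀ b ∈ V, a * b = b * a) ∧
    (∀ a ∈ V, a ^ q = 1) ∧ V ≠ ⊥ ∧ Subgroup.centralizer (V : Set X) ≤ V ∧
    h (Nat.card K) ≤ Nat.card V

/-- `O_p(G)`, the intersection of the Sylow `p`-subgroups. -/
def Op (p : ℕ) (G : Type) [Group G] : Subgroup G := ⨅ P : Sylow p G, (P : Subgroup G)

/-- The class `X` of finite groups is closed under isomorphisms, normal subgroups, direct products of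
two groups, extensions by groups of order prime to `p` (a group with a normal subgroup in `X` and
factor group of order prime to `p` is in `X`), and extensions of abelian groups of order prime to `p`
or of exponent dividing `q` by groups in `X`. For instance the class of all finite groups, or of all
finite groups whose nonabelian composition factors of order divisible by `p` belong to a given set. -/
structure IsClosedClass (p q : ℕ) (X : (G : Type) → [Group G] → Prop) : Prop where
  iso : ∀ {G K : Type} [Group G] [Group K] [Finite G], G ≃* K → X G → X K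
  normal : ∀ {G : Type} [Group G] [Finite G] (N : Subgroup G), N.Normal → X G → X N
  prod : ∀ {G K : Type} [Group G] [Group K] [Finite G] [Finite K], X G → X K → X (G × K)
  up : ∀ {G K : Type} [Group G] [Group K] [Finite G] (π : G →* K), Function.Surjective π →
    ¬ p ∣ Nat.card K → X π.ker → X G
  down : ∀ {G K : Type} [Group G] [Group K] [Finite G] (π : G →* K), Function.Surjective π →
    (∀ a ∈ π.ker, ∀ b ∈ π.ker, a * b = b * a) → ¬ p ∣ Nat.card π.ker → X K → X G
  downq : ∀ {G K : Type} [Group G] [Group K] [Finite G] (π : G →* K), Function.Surjective π →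
    (∀ a ∈ π.ker, ∀ b ∈ π.ker, a * b = b * a) → (∀ a ∈ π.ker, a ^ q = 1) → X K → X G

/-- **The McKay–Galois conjecture: perfect affine groups decide.** Let `p` be an odd prime, `q` any
prime (`q = p` is allowed) and `h` any function.
(1) The McKay–Galois conjecture (Q1) for `p` and all finite groups is equivalent to the McKay–Galois
conjecture for `p` and those finite groups `G` which are semidirect products `V ⋊ K` of an elementary
abelian `q`-group `V ≠ 1` and a group `K` acting faithfully on it, with `|V| ≥ h(|K|)`, and for which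
`|G : G'|` is a power of `2`.
(2) The same holds for the finite groups in a class `X` closed as in `IsClosedClass` and for an
arbitrary set `Γ` of automorphisms of `ℂ` in place of `𝓗`.
(3) Let `p ≥ 5` and let all elements of `Γ` act with odd order on the `n`-th roots of unity for all
`n`. Then there are bijections `Irr_{p'}(G) → Irr_{p'}(N_G(P))` commuting with all `σ ∈ Γ` for all `G`
in `X` if and only if there are such bijections for the perfect groups `G = V ⋊ K` in `X`, with `V` and
`K` as in (1).
(4) The McKay–Galois conjecture for `p` and all finite groups is equivalent to the McKay–Galois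
conjecture for `p` and the finite groups `G` for which `|G : G'|` is a power of `2`,
`C_G(O_p(G)) ≤ O_p(G)` and `O_{p'}(G) = 1`. -/
theorem result (p q : ℕ) [Fact p.Prime] [Fact q.Prime] (hp : p ≠ 2) (h : ℕ → ℕ) :
    ((∀ (G : Type) [Group G] [Finite G], Equivariant p (H p) G) ↔
      ∀ (G : Type) [Group G] [Finite G], IsAffine q h G →
        (∃ k : ℕ, (commutator G).index = 2 ^ k) → Equivariant p (H p) G) ∧
    (∀ X : (G : Type) → [Group G] → Prop, IsClosedClass p q X →
      (∀ Γ : Set (ℂ ≃+* ℂ), (∀ (G : Type) [Group G] [Finite G], X G → Equivariant p Γ G) ↔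
        ∀ (G : Type) [Group G] [Finite G], X G → IsAffine q h G →
          (∃ k : ℕ, (commutator G).index = 2 ^ k) → Equivariant p Γ G) ∧
      (5 ≤ p → ∀ Γ : Set (ℂ ≃+* ℂ), (∀ σ ∈ Γ, OddOrder σ) →
        ((∀ (G : Type) [Group G] [Finite G], X G → Equivariant p Γ G) ↔
          ∀ (G : Type) [Group G] [Finite G], X G → IsAffine q h G →
            commutator G = ⊤ → Equivariant p Γ G))) ∧
    ((∀ (G : Type) [Group G] [Finite G], Equivariant p (H p) G) ↔
      ∀ (G : Type) [Group G] [Finite G], (∃ k : ℕ, (commutator G).index = 2 ^ k) →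
        Subgroup.centralizer (Op p G : Set G) ≤ Op p G →
        (∀ N : Subgroup G, N.Normal → ¬ p ∣ Nat.card N → N = ⊥) → Equivariant p (H p) G) := by
  have hq : q.Prime := Fact.out
  have conv : ∀ {X : (G : Type) → [Group G] → Prop}, IsClosedClass p q X →
      Pool.Agent.H373.PG.Cl3 p q X := fun hX =>
    { iso := hX.iso
      normal := hX.normal
      prod := hX.prod
      up := hX.up
      down := hX.down
      downq := hX.downq }
  have key : ∀ X : (G : Type) → [Group G] → Prop, IsClosedClass p q X →
      ∀ Γ : Set (ℂ ≃+* ℂ), (∀ (G : Type) [Group G] [Finite G], X G → Equivariant p Γ G) ↔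
        ∀ (G : Type) [Group G] [Finite G], X G → IsAffine q h G →
          (∃ k : ℕ, (commutator G).index = 2 ^ k) → Equivariant p Γ G := fun X hX Γ =>
    ⟨fun h1 G _ _ hG _ _ => h1 G hG, fun h1 G _ _ hG =>
      Pool.Agent.H373.PG.mainA hq hp h (conv hX) Γ (fun G _ _ h2 h3 h4 => h1 G h2 h3 h4) G hG⟩
  refine ⟨?_, fun X hX => ⟨key X hX, fun h5 Γ hΓ =>
    ⟨fun h1 G _ _ hG _ _ => h1 G hG, fun h1 G _ _ hG =>
      Pool.Agent.H373.PG.mainB hq h5 h (conv hX) Γ hΓ (fun G _ _ h2 h3 h4 => h1 G h2 h3 h4) G hG⟩⟩,
    fun h1 G _ _ _ _ _ => h1 G, fun h1 G _ _ => ?_⟩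
  · have h0 := key (fun _ _ => True)
      { iso := fun _ _ => trivial
        normal := fun _ _ _ => trivial
        prod := fun _ _ => trivial
        up := fun _ _ _ _ => trivial
        down := fun _ _ _ _ _ => trivial
        downq := fun _ _ _ _ _ => trivial } (H p)
    constructor
    · exact fun h1 G _ _ _ _ => h1 G
    · exact fun h1 G _ _ => h0.mpr (fun G _ _ _ h2 h3 => h1 G h2 h3) G trivial
  · refine Pool.Agent.H373.PG.mainA (𝒢 := fun _ _ => True) (Fact.out : p.Prime) hp (fun _ => 0)
      { iso := fun _ _ => trivial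
        normal := fun _ _ _ => trivial
        prod := fun _ _ => trivial
        up := fun _ _ _ _ => trivial
        down := fun _ _ _ _ _ => trivial
        downq := fun _ _ _ _ _ => trivial } (H p) (fun G _ _ _ hA hk => ?_) G trivial
    obtain ⟨V, K, hn, -, -, he, -, hc, -⟩ := hA
    have hV : IsPGroup p V := fun v => ⟨1, by
      rw [pow_one]
      exact Subtype.ext (he v.1 v.2)⟩
    obtain ⟨h2, h3⟩ := Pool.Agent.H373.PG.char_p V hn hV hc
    exact h1 G hk h2 h3

end Pool.Agent.Results.MP_1ae3da_al.PerfectAffineGroups
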